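import Mathlib
import Pool.Agent.TH87.FDC.PropA

set_option autoImplicit false

/-!
# A finitely generated amenable group with Property A which does not have weak finite decomposition
complexity

The group is Grigorchuk's group of intermediate growth. It contains an infinite finitely generated
subgroup `K` which contains its own square `K × K`, and no group with such a subgroup has weak FDC
(the idea of the proof is explained in the file `GrigorchukNoWeakFDC` of `MP_bba340_al`). Property A
is obtained from Følner sets, which exist by the subexponential growth.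

The notion of weak FDC is the one of this problem: the pieces of a decomposition have to be members
of a family in the collection.
-/

namespace Pool.Agent.Results.MP_19ba80_al.PropertyANotWeakFDC

open Pool.Agent.TH87.FDC

/-- `𝒳` is `(d, r)`-decomposable over the family `𝒴`: every member `X` of `𝒳` can be written as
`X = X_0 ∪ ... ∪ X_d`, where each `X_k` is an `r`-disjoint union of members of `𝒴`. -/
def DecomposableOverFamily (d : ℕ) (r : ℝ) (𝒳 𝒴 : MetricFamily) : Prop :=
  ∃ D : Decomposition r d 𝒳, ∀ i k j, ∃ l : 𝒴.ι, Nonempty (D.piece i k j ≃ᵢ 𝒴.space l)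

/-- `𝒳` weakly decomposes over the collection `C`. -/
def WeaklyDecomposes (C : MetricFamily → Prop) (𝒳 : MetricFamily) : Prop :=
  ∃ d : ℕ, ∀ r : ℝ, 0 < r → ∃ 𝒴 : MetricFamily, C 𝒴 ∧ DecomposableOverFamily d r 𝒳 𝒴

/-- The families with weak FDC: the smallest collection that contains all bounded families and
every family which weakly decomposes over it. -/
def WeakFDC (𝒳 : MetricFamily) : Prop :=
  ∀ C : MetricFamily → Prop, (∀ 𝒴 : MetricFamily, 𝒴.Bounded → C 𝒴) →
    (∀ 𝒴 : MetricFamily, WeaklyDecomposes C 𝒴 → C 𝒴) → C 𝒳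

/-- There is a finitely generated (so countable) group which, with any proper left-invariant metric,
has Property A but does not have weak FDC. -/
theorem result : ∃ (G : Type) (_ : Group G), Group.FG G ∧ Countable G ∧
    (∃ m : MetricSpace G, ProperLeftInvariant m) ∧
    ∀ m : MetricSpace G, ProperLeftInvariant m →
      PropertyA m ∧ ¬ WeakFDC (MetricFamily.single G m) := by
  have hfg : Group.FG SB.G := by
    rw [Group.fg_iff_subgroup_fg]
    refine ⟨(Set.toFinite ({SB.a, SB.b, SB.c, SB.d} : Set (Equiv.Perm (List Bool)))).toFinset, ?_⟩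
    rw [Set.Finite.coe_toFinset]
    rfl
  obtain ⟨T, hT, hfin⟩ := Group.fg_iff.1 hfg
  have hm0 := properLeftInvariant_wordMetric hfin hT
  have hcount : Countable SB.G := by
    rw [← Set.countable_univ_iff]
    refine (Set.countable_iUnion (fun k : ℕ => (isWord_finite hfin k).countable)).mono ?_
    intro g _
    obtain ⟨k, hk⟩ := exists_isWord hT g
    exact Set.mem_iUnion.2 ⟨k, hk⟩
  refine ⟨SB.G, inferInstance, hfg, hcount, ⟨_, hm0⟩, fun m hm => ?_⟩
  refine ⟨propertyA_of_folner hm folner_G, fun h => ?_⟩
  obtain ⟨K, hK, hKfg, hKinf, θ, ι, hθ, hι⟩ := exists_square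
  obtain ⟨T', hT', hfin'⟩ := Group.fg_iff.1 hKfg
  have hfinite : Finite T' := hfin'
  have ht := tree_of_square θ hθ ι hι (A := T') (fun a => a.1)
    (by rw [Subtype.range_coe_subtype]; exact hT')
  refine not_good'_single hm ht [] (h _ (good'_bounded hm ht) ?_)
  rintro 𝒴 ⟨d, hd⟩
  refine good'_stable_general hm ht (d := d) fun r hr => ?_
  obtain ⟨𝒵, h1, D, h2⟩ := hd r hr
  refine ⟨D, 𝒵, h1, fun i k j => ?_⟩
  obtain ⟨l, ⟨e⟩⟩ := h2 i k j
  exact ⟨l, e, e.isometry⟩

end Pool.Agent.Results.MP_19ba80_al.PropertyANotWeakFDC
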